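import Pool.Agent.helper93.TV.Spec1

set_option autoImplicit false

namespace Pool.Agent.helper93.TV

open BigOperators Finset Matrix

theorem CR : CR_stmt := by
  intro hU1 hU2 I V _ _ _ _ D F hF A G
  obtain ⟨a, ha⟩ : ∃ a, a = D.s1 A := ⟨_, rfl⟩
  obtain ⟨b, hb⟩ : ∃ b, b = D.s2 A := ⟨_, rfl⟩
  have hcp : ∀ l e e' l', F l e e' l' ≠ 0 → D.cp l e e' l' := fun l e e' l' h =>
    (hF.uf.conn.supp l e e' l' h).1
  have hlo : D.lam D.o = D.rho D.o := by
    have h := D.rho_unique (D.lam D.o) (D.s2_lam _)
    rwa [D.s1_lam] at h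
  -- the left side of the pentagon
  have hL : ∀ β δ, ∑ ν, F (D.lam b) (D.eta b) β ν * F (D.eta (D.du a)) ν δ (D.eta (D.du a)) =
      if β = D.eta b ∧ δ = D.rho a then 1 else 0 := by
    intro β δ
    rw [sum_eq_single (D.lam D.o)]
    · have h1 := hU1 I V D F hF (D.eta b) β
      rw [D.s1_eta, D.t_eta] at h1
      rw [h1]
      have h2 : F (D.eta (D.du a)) (D.lam D.o) δ (D.eta (D.du a)) =
          if δ = D.rho a then 1 else 0 := by
        split_ifs with h
        · have h3 := hU2 I V D F hF (D.eta (D.du a)) (D.eta (D.du a))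
          rw [D.t_eta, D.s2_eta, D.du_du, if_pos rfl] at h3
          rw [h, hlo, h3]
        · by_contra hne
          obtain ⟨_, _, _, h4, h5, _⟩ := hcp _ _ _ _ hne
          rw [D.s2_eta, D.du_du] at h4
          rw [D.s2_lam] at h5
          apply h
          have h6 := D.rho_unique δ h5.symm
          rw [h6, ← h4]
      rw [h2]
      by_cases h3 : β = D.eta b
      · rw [if_pos h3.symm, one_mul]
        simp [h3]
      · rw [if_neg (fun h => h3 h.symm), zero_mul]
        simp [h3]
    · intro ν _ hν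
      have : F (D.lam b) (D.eta b) β ν = 0 := by
        by_contra hne
        obtain ⟨_, _, h3, _, _, h6⟩ := hcp _ _ _ _ hne
        rw [D.s1_lam] at h3
        rw [D.t_eta] at h6
        have h7 := D.lam_unique ν h3.symm
        apply hν
        rw [h7, D.t_lam] at h6
        rw [h7, ← h6]
      rw [this, zero_mul]
    · intro h
      exact absurd (mem_univ _) h
  -- the right side
  obtain ⟨Y, hY⟩ : ∃ Y : V → V → ℂ, Y = fun μ σ => if D.s1 μ = a ∧ D.s2 μ = b then
    ∑ ρ, D.Cm F μ ρ * D.Rm F ρ σ else 0 := ⟨_, rfl⟩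
  have hX : ∀ μ σ, ∑ ρ, F (D.eta (D.du a)) (D.lam b) μ ρ * F ρ (D.eta b) σ (D.eta (D.du a)) =
      Y μ σ := by
    intro μ σ
    rw [hY]
    show _ = if D.s1 μ = a ∧ D.s2 μ = b then ∑ ρ, D.Cm F μ ρ * D.Rm F ρ σ else 0
    split_ifs with h
    · apply sum_congr rfl
      intro ρ _
      show _ = F (D.eta (D.du (D.s1 μ))) (D.lam (D.s2 μ)) μ ρ *
        F ρ (D.eta (D.t ρ)) σ (D.eta (D.s1 ρ))
      rw [h.1, h.2]
      by_cases h0 : F (D.eta (D.du a)) (D.lam b) μ ρ = 0
      · rw [h0, zero_mul, zero_mul]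
      · obtain ⟨_, _, h3, _, _, h6⟩ := hcp _ _ _ _ h0
        rw [D.s1_eta] at h3
        rw [D.t_lam] at h6
        rw [← h3, ← h6]
    · apply sum_eq_zero
      intro ρ _
      have : F (D.eta (D.du a)) (D.lam b) μ ρ = 0 := by
        by_contra hne
        obtain ⟨_, _, _, h4, h5, _⟩ := hcp _ _ _ _ hne
        rw [D.s2_eta, D.du_du] at h4
        rw [D.s2_lam] at h5
        exact h ⟨h4.symm, h5.symm⟩
      rw [this, zero_mul]
  have hR : ∀ β δ, ∑ μ, ∑ σ, Y μ σ * F μ σ β δ = if β = D.eta b ∧ δ = D.rho a then 1 else 0 := by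
    intro β δ
    rw [← hL β δ, hF.uf.pent (D.eta (D.du a)) (D.lam b) (D.eta b) β δ (D.eta (D.du a))]
    apply sum_congr rfl
    intro μ _
    rw [sum_comm]
    apply sum_congr rfl
    intro σ _
    rw [← hX μ σ, sum_mul]
  have hYA : ∑ κ, D.Cm F A κ * D.Rm F κ G = Y A G := by
    rw [hY]
    show _ = if D.s1 A = a ∧ D.s2 A = b then _ else _
    rw [if_pos ⟨ha.symm, hb.symm⟩]
  have hYt : D.t A ≠ D.s1 G → Y A G = 0 := by
    intro h
    rw [← hYA]
    apply sum_eq_zero
    intro κ _
    by_contra hne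
    have h1 : D.Cm F A κ ≠ 0 := left_ne_zero_of_mul hne
    have h2 : D.Rm F κ G ≠ 0 := right_ne_zero_of_mul hne
    obtain ⟨_, h3, _⟩ := hcp _ _ _ _ h1
    obtain ⟨_, _, _, h4, _⟩ := hcp _ _ _ _ h2
    exact h (h3.trans h4)
  have hrow : ∀ μ σ, Y μ σ * (if μ = A ∧ σ = G then 1 else 0) =
      Y μ σ * ∑ β, ∑ δ, F μ σ β δ * star (F A G β δ) := by
    intro μ σ
    by_cases ht : D.t μ = D.s1 σ
    · rw [hF.uf.conn.row μ σ A G ht (mem_univ _) (mem_univ _)]
    · have h0 : ∑ β, ∑ δ, F μ σ β δ * star (F A G β δ) = 0 := by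
        apply sum_eq_zero
        intro β _
        apply sum_eq_zero
        intro δ _
        have : F μ σ β δ = 0 := by
          by_contra hne
          exact ht (hcp _ _ _ _ hne).1
        rw [this, zero_mul]
      rw [h0, mul_zero]
      by_cases h : μ = A ∧ σ = G
      · rw [h.1, h.2] at ht
        rw [h.1, h.2, hYt ht, zero_mul]
      · rw [if_neg h, mul_zero]
  rw [hYA]
  calc Y A G = ∑ μ, ∑ σ, Y μ σ * (if μ = A ∧ σ = G then 1 else 0) := by
        rw [sum_eq_single A, sum_eq_single G]
        · rw [if_pos ⟨rfl, rfl⟩, mul_one]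
        · intro σ _ hσ
          rw [if_neg (fun h => hσ h.2), mul_zero]
        · intro h
          exact absurd (mem_univ _) h
        · intro μ _ hμ
          apply sum_eq_zero
          intro σ _
          rw [if_neg (fun h => hμ h.1), mul_zero]
        · intro h
          exact absurd (mem_univ _) h
    _ = ∑ μ, ∑ σ, Y μ σ * ∑ β, ∑ δ, F μ σ β δ * star (F A G β δ) := by
        apply sum_congr rfl
        intro μ _
        apply sum_congr rfl
        intro σ _
        exact hrow μ σ
    _ = ∑ β, ∑ δ, (∑ μ, ∑ σ, Y μ σ * F μ σ β δ) * star (F A G β δ) := by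
        have e1 : ∀ μ, ∑ σ, Y μ σ * ∑ β, ∑ δ, F μ σ β δ * star (F A G β δ) =
            ∑ β, ∑ δ, (∑ σ, Y μ σ * F μ σ β δ) * star (F A G β δ) := by
          intro μ
          have e2 : ∀ σ, Y μ σ * ∑ β, ∑ δ, F μ σ β δ * star (F A G β δ) =
              ∑ β, ∑ δ, Y μ σ * F μ σ β δ * star (F A G β δ) := by
            intro σ
            rw [mul_sum]
            apply sum_congr rfl
            intro β _
            rw [mul_sum]
            apply sum_congr rfl
            intro δ _
            ring
          rw [sum_congr rfl (fun σ _ => e2 σ), sum_comm]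
          apply sum_congr rfl
          intro β _
          rw [sum_comm]
          apply sum_congr rfl
          intro δ _
          rw [sum_mul]
        rw [sum_congr rfl (fun μ _ => e1 μ), sum_comm]
        apply sum_congr rfl
        intro β _
        rw [sum_comm]
        apply sum_congr rfl
        intro δ _
        rw [sum_mul]
    _ = ∑ β, ∑ δ, (if β = D.eta b ∧ δ = D.rho a then 1 else 0) * star (F A G β δ) := by
        apply sum_congr rfl
        intro β _
        apply sum_congr rfl
        intro δ _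
        rw [hR β δ]
    _ = star (F A G (D.eta b) (D.rho a)) := by
        rw [sum_eq_single (D.eta b), sum_eq_single (D.rho a)]
        · rw [if_pos ⟨rfl, rfl⟩, one_mul]
        · intro σ _ hσ
          rw [if_neg (fun h => hσ h.2), zero_mul]
        · intro h
          exact absurd (mem_univ _) h
        · intro μ _ hμ
          apply sum_eq_zero
          intro σ _
          rw [if_neg (fun h => hμ h.1), zero_mul]
        · intro h
          exact absurd (mem_univ _) h
    _ = star (D.Bm F A G) := by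
        show _ = star (F A G (D.eta (D.s2 A)) (D.rho (D.s1 A)))
        rw [← ha, ← hb]

end Pool.Agent.helper93.TV
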